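import Pool.Agent.T9h34.Q.Spec2

set_option autoImplicit false

/-!
# Planted cliques in G(n, 1/2): the final theorem
-/

namespace Pool.Agent.T9h34.Q

open Finset
open Pool.Agent.PC34 (prob withClique)
open Pool.Agent.T9h34 (graphInput)
open Pool.Agent.T9h34.P (gr)
open Pool.Agent.HC34 (srcs IsLevel DepthLE)

theorem prob_le_one {Ω : Type} [Fintype Ω] (A : Ω → Prop) : prob A ≤ 1 := by
  classical
  unfold prob
  rcases Nat.eq_zero_or_pos (Fintype.card Ω) with h | h
  · rw [h]; simp
  · rw [div_le_one (by exact_mod_cast h)]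
    exact_mod_cast Finset.card_le_univ _

theorem prob_nonneg {Ω : Type} [Fintype Ω] (A : Ω → Prop) : 0 ≤ prob A := by
  classical
  unfold prob
  positivity

theorem withClique_gr {n : ℕ} (U : Finset (Sym2 (Fin n))) (S : Finset (Fin n)) :
    withClique (gr U) S = gr (U ∪ KT S) := by
  ext u v
  simp only [withClique, gr, KT, mem_union, mem_filter, Finset.mk_mem_sym2_iff, Sym2.mk_isDiag_iff]
  tauto

theorem prob_congr {Ω : Type} [Fintype Ω] {A B : Ω → Prop} (h : ∀ ω, A ω ↔ B ω) :
    prob A = prob B := by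
  have : A = B := funext fun ω => propext (h ω)
  rw [this]

theorem prob_equiv {Ω Ω' : Type} [Fintype Ω] [Fintype Ω'] (e : Ω ≃ Ω') (A : Ω' → Prop) :
    prob (fun ω => A (e ω)) = prob A := by
  classical
  unfold prob
  rw [Fintype.card_congr e]
  congr 2
  apply Finset.card_bij (fun ω _ => e ω)
  · intro ω h
    simpa using h
  · intro ω _ ω' _ h
    exact e.injective h
  · intro ω' h
    exact ⟨e.symm ω', by simpa using h, by simp⟩

theorem stFinal (hAll : StAll) (hPar : StParams) (hGr : StGr) : StFinal := by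
  intro ε h0 h1
  obtain ⟨n₀, hn₀⟩ := hPar ε h0 h1
  refine ⟨n₀, ?_⟩
  intro n k f s D hn hD hkD hns hf hlog d' C hC hCs hdep
  obtain ⟨hnpos, hkn, c, m, q, B, d, hc, hd, hq, hB, hR, herr⟩ :=
    hn₀ n k f s D hn hD hkD hns hf hlog
  by_cases hT : C.numTests ≤ Nat.log 2 n
  · have h2 := hAll n B d m k f c q D s d' C hnpos hkn hC hCs hdep hf hc hd hq
      (le_trans (Nat.mul_le_mul_left q (by omega)) hB) hR
    have h3 := hGr n {S : Finset (Fin n) // S.card = k}
      (fun G S => C.eval (graphInput (withClique G S.1)) = true)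
    have h4 := hGr n Unit (fun G _ => C.eval (graphInput G) = true)
    have h5 : prob (fun x : Finset (Sym2 (Fin n)) × Unit => C.eval (graphInput (gr x.1)) = true) =
        prob (fun U : Finset (Sym2 (Fin n)) => C.eval (graphInput (gr U)) = true) :=
      prob_equiv (Equiv.prodPUnit _) (fun U : Finset (Sym2 (Fin n)) =>
        C.eval (graphInput (gr U)) = true)
    have h6 : prob (fun x : SimpleGraph (Fin n) × Unit => C.eval (graphInput x.1) = true) =
        prob (fun G : SimpleGraph (Fin n) => C.eval (graphInput G) = true) :=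
      prob_equiv (Equiv.prodPUnit _) (fun G : SimpleGraph (Fin n) =>
        C.eval (graphInput G) = true)
    simp only [withClique_gr] at h3
    rw [← h3]
    rw [h5, h6] at h4
    rw [← h4]
    refine h2.trans ?_
    have h7 := mul_le_mul_of_nonneg_left herr
      (by positivity : (0 : ℝ) ≤ 2 ^ C.numTests)
    linarith
  · push Not at hT
    have h2 : n < 2 ^ C.numTests := by
      have := Nat.lt_pow_succ_log_self (b := 2) (by norm_num) n
      exact lt_of_lt_of_le this (Nat.pow_le_pow_right (by norm_num) hT)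
    have h3 : (n : ℝ) ≤ 2 ^ C.numTests := by exact_mod_cast h2.le
    have hn1 : (1 : ℝ) ≤ n := by exact_mod_cast hnpos
    have h4 : (n : ℝ) ^ (-(1 : ℝ)) ≤ (n : ℝ) ^ (-(ε / 2)) :=
      Real.rpow_le_rpow_of_exponent_le hn1 (by linarith)
    have h5 : (1 : ℝ) ≤ 2 ^ C.numTests * (n : ℝ) ^ (-(ε / 2)) := by
      calc (1 : ℝ) = n * (n : ℝ) ^ (-(1 : ℝ)) := by
            rw [Real.rpow_neg_one]
            field_simp
        _ ≤ 2 ^ C.numTests * (n : ℝ) ^ (-(ε / 2)) :=
            mul_le_mul h3 h4 (by positivity) (by positivity)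
    have h6 := prob_le_one (fun x : SimpleGraph (Fin n) × {S : Finset (Fin n) // S.card = k} =>
      C.eval (graphInput (withClique x.1 x.2.1)) = true)
    have h7 := prob_nonneg (fun G : SimpleGraph (Fin n) => C.eval (graphInput G) = true)
    linarith

end Pool.Agent.T9h34.Q
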