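import Pool.Agent.T9h34.Q.Counting
import Pool.Agent.T9h34.Q.X7
import Pool.Agent.T9h51.QC.Count
import Pool.Agent.T9h51.QC.Sum
import Pool.Agent.T9h67.QC.X012
import Pool.Agent.T9h67.QC.X3
import Pool.Agent.T9h35.QC.X4
import Pool.Agent.T9h12.QC.X5
import Pool.Agent.T9h77.QC.X6

set_option autoImplicit false

/-!
# Planted cliques in G(n, 1/2): counting the edges, and slices
-/

namespace Pool.Agent.T9h34.Q

open Pool.Agent.PC34 (prob withClique)
open Pool.Agent.T9h34 (graphInput)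
open Pool.Agent.HC34 (DepthLE)

/-- **Counting the edges.** -/
theorem counting : ∃ c : ℝ, 0 < c ∧ ∀ n k : ℕ, 2 ≤ k → k ^ 2 ≤ n →
    ∃ C : T9h35.RW.Circuit (Fin n × Fin n),
      C.FanIn 2 0 ∧ C.numTests = 0 ∧ C.size ≤ 2 * n ^ 2 ∧ DepthLE C (2 * Nat.log 2 n + 2) ∧
      prob (fun G : SimpleGraph (Fin n) => C.eval (graphInput G) = true) + c * (k ^ 2 / n) ≤
      prob (fun x : SimpleGraph (Fin n) × {S : Finset (Fin n) // S.card = k} =>
        C.eval (graphInput (withClique x.1 x.2.1)) = true) :=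
  counting_of T9h51.QC.stCount T9h51.QC.stSum

/-- **From any circuit to circuits with few tests.** -/
theorem slices : StP7 :=
  stP7 (T9h12.QC.stP5 T9h67.QC.stP0 T9h67.QC.stP1 T9h67.QC.stP2 T9h67.QC.stP3
    (T9h35.QC.stP4 T9h67.QC.stP1)) T9h77.QC.stP6

end Pool.Agent.T9h34.Q
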