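import Pool.Agent.T9h34.Q.Spec2

set_option autoImplicit false

/-!
# Planted cliques in G(n, 1/2): the sharp form

The advantage is at most `2 ^ T * (k * D) ^ 2 * n ^ (-1 + δ)`: for `T = 0` counting the edges is
optimal.  What is new: for the output (a function with the values `0` and `1`) the probability of a
critical pattern with `j` vertices gets an additional factor, the total variation distance of
`G` and `G` with the stars of one block.  For if some choice is the unique maximum, then the value on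
all stars together is `1`, and the value without them is `0`.
-/

namespace Pool.Agent.T9h34.Q

open Finset
open Pool.Agent.PC34 (prob withClique)
open Pool.Agent.T9h34 (graphInput)
open Pool.Agent.T9h34.P (gr)
open Pool.Agent.HC34 (srcs IsLevel DepthLE)

section defs

variable {V : Type} [Fintype V] [DecidableEq V] {B d m j : ℕ}

/-- All stars: the packets of block `a`, and the centres `φ i`, `i ∈ C`, with their marks and
leaves. -/
def allG (φ : Fin j → V) (N : Fin j → Ix B d m → V) (pk : Ix B d m → Packet V B d m) (a : Fin B)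
    (C : Finset (Fin j)) (par : Fin j → Fin j) : Finset (Sym2 V) :=
  (univ.filter (fun i : Ix B d m => i.1 = a)).biUnion (fun i => star (pk i)) ∪
    C.biUnion (fun i => univ.image (fun b : Ix B d m => s(φ i, N i b))) ∪
    Cᶜ.image (fun w => s(φ (par w), φ w))

/-- `G` and the packets of the blocks before `a`. -/
def baseG (G : Finset (Sym2 V)) (pk : Ix B d m → Packet V B d m) (a : ℕ) : Finset (Sym2 V) :=
  G ∪ (ixBelow B d m a).biUnion (fun i => star (pk i))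

/-- Functions with the values `0` and `1`. -/
def IsBool (h : Finset (Sym2 V) → ℝ) : Prop := ∀ G, h G = 0 ∨ h G = 1

/-- Whether the circuit accepts, as a function with the values `0` and `1`. -/
noncomputable def outInd {n : ℕ} (C : T9h35.RW.Circuit (Fin n × Fin n))
    (U : Finset (Sym2 (Fin n))) : ℝ :=
  if C.eval (graphInput (gr U)) = true then 1 else 0

/-- The probability of an error, for circuits without gates of the second kind; `δ` is the distance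
made by one star. -/
noncomputable def errR (s q c w M : ℕ) (x δ : ℝ) : ℝ :=
  s * (q * ∑ j ∈ Icc (c + 1) w, wgt x j) + M * δ * (q * ∑ j ∈ Icc 1 c, wgt x j)

end defs

/-! ## The pieces -/

/-- (C') As (C) `StUnique`, keeping the union of the disjoint events. -/
def StUniqueB : Prop := ∀ (Γ D : Type) [Fintype Γ] [AddGroup Γ] [Fintype D] (v : Γ → D → ℝ)
  (τ : Γ → Equiv.Perm D), (∀ g g' x, v g (τ g' x) = v (g + g') x) →
  Nat.card Γ * Nat.card {x : D // ∀ g, g ≠ 0 → v g x < v 0 x} ≤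
  Nat.card {x : D // ∃ g', ∀ g, g ≠ g' → v g x < v g' x}

/-- (D2') As (D2) `StRot` (same rotation), with (C').  If `g'` is the unique maximum, then
`val g' ≤ h (base ∪ all)` (the graph of every choice is contained in `baseG ∪ allG`), and
`h base ≤ val g < val g'` for some other `g` (there is one, since `1 ≤ j` and `1 ≤ m`). -/
def StRotB : Prop := ∀ (V : Type) [Fintype V] [DecidableEq V] (B d m j : ℕ) (a : Fin B)
  (hj : j ≤ d) (h : Finset (Sym2 V) → ℝ), Monotone h → ∀ (G : Finset (Sym2 V))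
  (C A : Finset (Fin j)) (par : Fin j → Fin j), A ⊆ C → (∀ w ∉ C, par w ∈ C) → 1 ≤ j → 1 ≤ m →
  (m + 1) ^ j * Nat.card {x : (Fin j → V) × (Fin j → Ix B d m → V) × (Ix B d m → Packet V B d m) //
    ∀ g : Fin j → Fin (m + 1), g ≠ 0 →
      val h G x.1 x.2.1 x.2.2 a hj C A par g < val h G x.1 x.2.1 x.2.2 a hj C A par 0} ≤
  Nat.card {x : (Fin j → V) × (Fin j → Ix B d m → V) × (Ix B d m → Packet V B d m) //
    h (baseG G x.2.2 a) < h (baseG G x.2.2 a ∪ allG x.1 x.2.1 x.2.2 a C par)}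

/-- (H3) The total variation distance made by all stars, for `h` with values `0` and `1`: they are
`d * m` packets and at most `j` further stars (centre `φ i`, `i ∈ C`, leaves: the marks of `φ i` and
the `φ w` with `par w = i`, at most `card (Ix B d m) + d ≤ card (Rt B d m)` leaves), all coordinates
are independent; add them one after the other, by (H1) `StStar`
(`P[h (G ∪ X) = 1] ≤ P[h (G) = 1] + ...` with `Θ G = (h (G ∪ stuff) = 1)`). -/
def StAllTV : Prop := ∀ (V : Type) [Fintype V] [DecidableEq V] [Nonempty V] (B d m j : ℕ)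
  (a : Fin B), j ≤ d → (Fintype.card (Rt B d m)) ^ 2 ≤ Fintype.card V →
  ∀ (h : Finset (Sym2 V) → ℝ), Monotone h → IsBool h →
  ∀ (C : Finset (Fin j)) (par : Fin j → Fin j), (∀ w ∉ C, par w ∈ C) →
  prob (fun x : Finset (Sym2 V) × (Fin j → V) × (Fin j → Ix B d m → V) ×
      (Ix B d m → Option (Rt B d m) → V) =>
    h (baseG x.1 x.2.2.2 a) < h (baseG x.1 x.2.2.2 a ∪ allG x.2.1 x.2.2.1 x.2.2.2 a C par)) ≤
  ((d * m + j : ℕ) : ℝ) * (2 * (Fintype.card (Rt B d m) : ℝ) / Fintype.card V)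

/-- (D4') From (D1) `StDet`, (D2'), (D3) `StFibre`, (H3). -/
def StExchB : Prop := ∀ (V : Type) [Fintype V] [DecidableEq V] [Nonempty V] (B d m j a : ℕ),
  a < B → j ≤ d → 1 ≤ j → 1 ≤ m → (Fintype.card (Rt B d m)) ^ 2 ≤ Fintype.card V →
  ∀ (h : Finset (Sym2 V) → ℝ), Monotone h → IsBool h →
  ∀ (C A : Finset (Fin j)) (par : Fin j → Fin j), A ⊆ C → (∀ w ∉ C, par w ∈ C) →
  (∀ x ∈ C, x ∉ A → ∃ w ∉ C, par w = x) →
  ((m : ℝ) + 1) ^ j * prob (fun x : (Fin j → V) × Env V B d m =>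
    Function.Injective x.1 ∧ CritS h x.2 a x.1 C A par) ≤
  ((d * m + j : ℕ) : ℝ) * (2 * (Fintype.card (Rt B d m) : ℝ) / Fintype.card V)

/-- (F1') From (B) `StCover`, (E2) `StExtra`, (D4'); as (F1) `StShape`. -/
def StShapeB : Prop := ∀ (V : Type) [Fintype V] [DecidableEq V] [Nonempty V] (B d m j a : ℕ),
  a < B → j ≤ d → 1 ≤ j → 1 ≤ m → (Fintype.card (Rt B d m)) ^ 2 ≤ Fintype.card V →
  ∀ (h : Finset (Sym2 V) → ℝ), Monotone h → IsBool h →
  ∀ (F : Finset (Sym2 (Fin j))) (A : Finset (Fin j)),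
  (∀ e ∈ F, ¬ e.IsDiag) → (∀ v, v ∈ A ∨ ∃ e ∈ F, v ∈ e) →
  ((m : ℝ) + 1) ^ j * prob (fun x : (Fin j → V) × Env V B d m =>
    Function.Injective x.1 ∧ Crit h x.2 a (F.image (Sym2.map x.1)) (A.image x.1)
      (univ.image x.1)) ≤
  2 ^ F.card * (((d * m + j : ℕ) : ℝ) * (2 * (Fintype.card (Rt B d m) : ℝ) / Fintype.card V))

/-- (F2') From (F1'); as (F2) `StBad`. -/
def StBadB : Prop := ∀ (V : Type) [Fintype V] [DecidableEq V] [Nonempty V] (B d m k : ℕ),
  k ≤ Fintype.card V → ∀ (t q lo hi : ℕ), t + q ≤ B → 1 ≤ lo → hi ≤ d → 1 ≤ m →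
  (Fintype.card (Rt B d m)) ^ 2 ≤ Fintype.card V →
  ∀ (h : Finset (Sym2 V) → ℝ), Monotone h → IsBool h →
  prob (fun x : {S : Finset V // S.card = k} × Env V B d m => Bad h t q lo hi x.1.1 x.2) ≤
  ((d * m + hi : ℕ) : ℝ) * (2 * (Fintype.card (Rt B d m) : ℝ) / Fintype.card V) *
    ((q : ℝ) * ∑ j ∈ Icc lo hi, wgt ((k : ℝ) / (m + 1)) j)

/-- (G2') As (G2) `StCirc`, with the indicator of acceptance instead of the value of the output. -/
def StCircB : Prop := ∀ (n B d m f c q D : ℕ) (C : T9h35.RW.Circuit (Fin n × Fin n))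
  (lev : ℕ → ℕ),
  (∀ g ∈ C.gates, g.IsMono f) → (∀ j < C.size, lev j < D) → IsLevel C lev →
  1 ≤ f → 2 ≤ c → ((f * c) ^ 2 + 1) * (f * c + 1) ≤ q → q * (D + 1) ≤ B →
  ∀ (ω : Env (Fin n) B d m) (S : Finset (Fin n)),
  (∀ j < C.size, ¬ Bad (srcVal C (.gate j)) (q * lev j) q (c + 1) (f * c) S ω) →
  ¬ Bad (outInd C) (q * D) q 1 c S ω →
  C.eval (graphInput (gr (ω.1 ∪ KT S))) = true → C.eval (graphInput (gr (stage ω B))) = true

/-- (G3') From (F2) `StBad`, (F2'), (G2'). -/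
def StMonoB : Prop := ∀ (n B d m k f c q D s : ℕ) (C : T9h35.RW.Circuit (Fin n × Fin n)), 0 < n →
  k ≤ n → (∀ g ∈ C.gates, g.IsMono f) → C.size ≤ s → DepthLE C D → 1 ≤ f → 2 ≤ c → d = f * c →
  1 ≤ m → (d ^ 2 + 1) * (d + 1) ≤ q → q * (D + 1) ≤ B → (Fintype.card (Rt B d m)) ^ 2 ≤ n →
  prob (fun x : {S : Finset (Fin n) // S.card = k} × Env (Fin n) B d m =>
    C.eval (graphInput (gr (x.2.1 ∪ KT x.1.1))) = true ∧
      C.eval (graphInput (gr (stage x.2 B))) = false) ≤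
  errR s q c d (d * m + c) ((k : ℝ) / (m + 1)) (2 * (Fintype.card (Rt B d m) : ℝ) / n)

/-- (L') As (L) `StAll`, from (G3'), (J), (R), (H2). -/
def StAllB : Prop := ∀ (n B d m k f c q D s d' : ℕ) (C : T9h35.RW.Circuit (Fin n × Fin n)),
  0 < n → k ≤ n → C.FanIn f d' → C.size + C.numTests ≤ s → DepthLE C D → 2 ≤ f → 2 ≤ c →
  d = f * c → 1 ≤ m → (d ^ 2 + 1) * (d + 1) ≤ q → q * (D + C.numTests + 2) ≤ B →
  (Fintype.card (Rt B d m)) ^ 2 ≤ n →
  prob (fun x : Finset (Sym2 (Fin n)) × {S : Finset (Fin n) // S.card = k} =>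
    C.eval (graphInput (gr (x.1 ∪ KT x.2.1))) = true) ≤
  prob (fun U : Finset (Sym2 (Fin n)) => C.eval (graphInput (gr U)) = true) +
  2 ^ C.numTests * (errR (s + 1) q c d (d * m + c) ((k : ℝ) / (m + 1))
      (2 * (Fintype.card (Rt B d m) : ℝ) / n) +
    Fintype.card (Ix B d m) * (2 * (Fintype.card (Rt B d m) : ℝ) / n))

/-- (P') Parameters.  Suppose `(k * D) ^ 2 < n ^ (1 - δ)` (otherwise the bound of the theorem is
trivial).  Let `γ = δ / 5`, `m = ⌊k * n ^ γ⌋₊ + 1` (so `k / (m + 1) ≤ n ^ (-γ)`,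
`m ≤ 2 * k * n ^ γ`), `c = ⌈2 * (log s + 2 * log n) / (γ * log n)⌉₊ + 2`, `d = f * c`,
`q = (d ^ 2 + 1) * (d + 1)`, `B = q * (D + Nat.log 2 n + 2)`.  Then
`c ≤ 6 * log s / (γ * log n) + 3`, `d ≤ 30 * f * log s / (δ * log n) + 3 * f ≤ 0.02 * δ * log n`
if the constant in `f * log s ≤ δ ^ 2 / 2000 * (log n) ^ 2` is used, so `2 ^ (d + 2) ≤ n ^ (γ / 8)`,
`wgt x j ≤ (n ^ (-7 * γ / 8)) ^ j` for `1 ≤ j ≤ d`; `q` is at most a power of `log n`.
First part of `errR`: `(s + 1) * q * 2 * (n ^ (-7 * γ / 8)) ^ (c + 1) ≤ n ^ (-2)` for large `n`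
(`n ^ (7 / 8 * γ * (c + 1)) ≥ (s * n ^ 2) ^ (7 / 4)`).  Second part and the last term: at most a
power of `log n` times `(D * m) ^ 2 / n ≤ 4 * (k * D) ^ 2 * n ^ (2 * γ - 1)`
(`card (Ix B d m) = B * (d * m)`, `card (Rt B d m) = B * (d * m) + d * (m + 1)`).  -/
def StParamsB : Prop := ∀ δ : ℝ, 0 < δ → δ ≤ 1 → ∃ n₀ : ℕ, ∀ n k f s D : ℕ, n₀ ≤ n →
  1 ≤ k → 1 ≤ D → n ≤ s → 2 ≤ f → f * Real.log s ≤ δ ^ 2 / 2000 * Real.log n ^ 2 →
  ((k : ℝ) * D) ^ 2 < (n : ℝ) ^ (1 - δ) →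
  0 < n ∧ k ≤ n ∧ ∃ c m q B d : ℕ, 2 ≤ c ∧ d = f * c ∧ 1 ≤ m ∧ (d ^ 2 + 1) * (d + 1) ≤ q ∧
    q * (D + Nat.log 2 n + 2) ≤ B ∧ (Fintype.card (Rt B d m)) ^ 2 ≤ n ∧
    errR (s + 1) q c d (d * m + c) ((k : ℝ) / (m + 1)) (2 * (Fintype.card (Rt B d m) : ℝ) / n) +
      Fintype.card (Ix B d m) * (2 * (Fintype.card (Rt B d m) : ℝ) / n) ≤
    ((k : ℝ) * D) ^ 2 * (n : ℝ) ^ (δ - 1)

/-- (Z') The theorem, from (L'), (P'), (K). -/
def StFinalB : Prop := ∀ δ : ℝ, 0 < δ → δ ≤ 1 → ∃ n₀ : ℕ, ∀ n k f s D : ℕ, n₀ ≤ n →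
  1 ≤ k → 1 ≤ D → n ≤ s → 2 ≤ f → f * Real.log s ≤ δ ^ 2 / 2000 * Real.log n ^ 2 →
  ∀ (d : ℕ) (C : T9h35.RW.Circuit (Fin n × Fin n)), C.FanIn f d → C.size + C.numTests ≤ s →
  DepthLE C D →
  prob (fun x : SimpleGraph (Fin n) × {S : Finset (Fin n) // S.card = k} =>
    C.eval (graphInput (withClique x.1 x.2.1)) = true) ≤
  prob (fun G : SimpleGraph (Fin n) => C.eval (graphInput G) = true) +
    2 ^ C.numTests * (((k : ℝ) * D) ^ 2 * (n : ℝ) ^ (δ - 1))

end Pool.Agent.T9h34.Q
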