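import Pool.Agent.T9h34.P.Defs

set_option autoImplicit false

/-!
# Planted cliques in G(n, 1/2): the environment of random stars and the statements of the pieces

A graph is a set of edges `G : Finset (Sym2 V)`, uniformly random.  The environment `ω` consists of
the graph `G_0 = ω.1`, of packets (stars with a random centre, in `B` blocks of `d * m` packets) and
of marks (`B * d * m` random vertices for every vertex).  `stage ω a` is `G_0` together with the
stars of the packets of the blocks `< a`; `marks ω a A` joins every vertex of `A` to its marks of the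
blocks `< a`.
-/

namespace Pool.Agent.T9h34.Q

open Finset
open Pool.Agent.PC34 (prob)

section defs

variable {V : Type} [Fintype V] [DecidableEq V] {B d m j : ℕ}

/-- The edges between vertices of `T`. -/
def KT (T : Finset V) : Finset (Sym2 V) := T.sym2.filter (fun e => ¬ e.IsDiag)

/-- Names of the packets, and names of the marks of a vertex: block, slot, number. -/
abbrev Ix (B d m : ℕ) : Type := Fin B × Fin d × Fin m

/-- Names of the leaves of a packet: a copy of the marks, and a pool of `m + 1` leaves for every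
slot. -/
abbrev Rt (B d m : ℕ) : Type := Ix B d m ⊕ (Fin d × Fin (m + 1))

/-- A packet: the centre (`none`) and the leaves (`some r`). -/
abbrev Packet (V : Type) (B d m : ℕ) : Type := Option (Rt B d m) → V

/-- The environment: the graph `G_0`, the packets, the marks. -/
abbrev Env (V : Type) (B d m : ℕ) : Type :=
  Finset (Sym2 V) × (Ix B d m → Packet V B d m) × (V → Ix B d m → V)

instance decIx : DecidableEq (Ix B d m) := instDecidableEqProd
instance finIx : Fintype (Ix B d m) := instFintypeProd _ _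
instance decRt : DecidableEq (Rt B d m) := instDecidableEqSum
instance finRt : Fintype (Rt B d m) := instFintypeSum _ _
instance finPacket : Fintype (Option (Rt B d m) → V) := Pi.instFintype
instance finPackets : Fintype (Ix B d m → Option (Rt B d m) → V) := Pi.instFintype
instance finMarks : Fintype (Ix B d m → V) := Pi.instFintype
instance finMarks' : Fintype (V → Ix B d m → V) := Pi.instFintype
instance finMarks'' : Fintype (Fin j → Ix B d m → V) := Pi.instFintype
instance finEnv : Fintype (Env V B d m) := instFintypeProd _ _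

/-- The star with centre `p none`. -/
def star {ρ : Type} [Fintype ρ] (p : Option ρ → V) : Finset (Sym2 V) :=
  univ.image (fun r : ρ => s(p none, p (some r)))

/-- The names in the blocks before `a`. -/
def ixBelow (B d m a : ℕ) : Finset (Ix B d m) := univ.filter (fun i => (i.1 : ℕ) < a)

/-- `G_0` and the stars of the packets of the blocks before `a`. -/
def stage (ω : Env V B d m) (a : ℕ) : Finset (Sym2 V) :=
  ω.1 ∪ (ixBelow B d m a).biUnion (fun i => star (ω.2.1 i))

/-- The edges from the vertices of `A` to their marks of the blocks before `a`. -/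
def marks (ω : Env V B d m) (a : ℕ) (A : Finset V) : Finset (Sym2 V) :=
  A.biUnion (fun v => (ixBelow B d m a).image (fun i => s(v, ω.2.2 v i)))

/-- The value of `h` at stage `a`, with the marks of `A` and the edges `F`. -/
def phi (h : Finset (Sym2 V) → ℝ) (ω : Env V B d m) (a : ℕ) (F : Finset (Sym2 V))
    (A : Finset V) : ℝ :=
  h (stage ω a ∪ marks ω a A ∪ F)

/-- `F`, `A` is a critical pattern. -/
def Crit (h : Finset (Sym2 V) → ℝ) (ω : Env V B d m) (a : ℕ) (F : Finset (Sym2 V))
    (A T : Finset V) : Prop :=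
  (∀ e ∈ F, phi h ω (a + 1) (F.erase e) T < phi h ω a F A) ∧
  (∀ v ∈ A, phi h ω (a + 1) F (A.erase v) < phi h ω a F A)

/-- A critical pattern with at least `lo` and at most `hi` vertices in `S`, at one of the stages
`t, ..., t + q - 1`. -/
def Bad (h : Finset (Sym2 V) → ℝ) (t q lo hi : ℕ) (S : Finset V) (ω : Env V B d m) : Prop :=
  ∃ a, t ≤ a ∧ a < t + q ∧ ∃ (T A : Finset V) (F : Finset (Sym2 V)), T ⊆ S ∧ A ⊆ T ∧ F ⊆ KT T ∧
    (∀ v ∈ T, v ∈ A ∨ ∃ e ∈ F, v ∈ e) ∧ lo ≤ T.card ∧ T.card ≤ hi ∧ Crit h ω a F A T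

/-- The edges from the leaves in `L` to their parents. -/
def leafE (φ : Fin j → V) (par : Fin j → Fin j) (L : Finset (Fin j)) : Finset (Sym2 V) :=
  L.image (fun w => s(φ (par w), φ w))

/-- The critical patterns which are stars: centres `C`, leaves `Cᶜ`, marked vertices `A`. -/
def CritS (h : Finset (Sym2 V) → ℝ) (ω : Env V B d m) (a : ℕ) (φ : Fin j → V)
    (C A : Finset (Fin j)) (par : Fin j → Fin j) : Prop :=
  (∀ w ∈ Cᶜ, phi h ω (a + 1) (leafE φ par (Cᶜ.erase w)) (univ.image φ) <
    phi h ω a (leafE φ par Cᶜ) (A.image φ)) ∧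
  (∀ v ∈ A, phi h ω (a + 1) (leafE φ par Cᶜ) ((A.erase v).image φ) <
    phi h ω a (leafE φ par Cᶜ) (A.image φ))

/-- The centre of slot `i` in the choice `g`. -/
def selC (φ : Fin j → V) (pk : Ix B d m → Packet V B d m) (a : Fin B) (hj : j ≤ d)
    (g : Fin j → Fin (m + 1)) (i : Fin j) : V :=
  Fin.cases (motive := fun _ => V) (φ i) (fun l => pk (a, Fin.castLE hj i, l) none) (g i)

/-- The mark `b` of the centre of slot `i` in the choice `g`. -/
def selM (N : Fin j → Ix B d m → V) (pk : Ix B d m → Packet V B d m) (a : Fin B) (hj : j ≤ d)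
    (g : Fin j → Fin (m + 1)) (i : Fin j) (b : Ix B d m) : V :=
  Fin.cases (motive := fun _ => V) (N i b)
    (fun l => pk (a, Fin.castLE hj i, l) (some (Sum.inl b))) (g i)

/-- The leaf `w` in the choice `g`. -/
def selL (φ : Fin j → V) (N : Fin j → Ix B d m → V) (pk : Ix B d m → Packet V B d m) (a : Fin B)
    (hj : j ≤ d) (par : Fin j → Fin j) (g : Fin j → Fin (m + 1)) (w : Fin j) : V :=
  Fin.cases (motive := fun _ => V)
    (Fin.cases (motive := fun _ => V) (φ w) (fun r => N (par w) (a, Fin.castLE hj w, r)) (g w))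
    (fun l => pk (a, Fin.castLE hj (par w), l) (some (Sum.inr (Fin.castLE hj w, g w)))) (g (par w))

/-- The graph `G`, together with the marks of the centres in `A` and the leaves. -/
def conf (G : Finset (Sym2 V)) (a : ℕ) (C A : Finset (Fin j)) (par : Fin j → Fin j)
    (cen : Fin j → V) (mk : Fin j → Ix B d m → V) (lf : Fin j → V) : Finset (Sym2 V) :=
  G ∪ A.biUnion (fun i => (ixBelow B d m a).image (fun b => s(cen i, mk i b))) ∪
    Cᶜ.image (fun w => s(cen (par w), lf w))

/-- The value of `h` on the choice `g`; `G` is the graph `G_0`. -/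
def val (h : Finset (Sym2 V) → ℝ) (G : Finset (Sym2 V)) (φ : Fin j → V) (N : Fin j → Ix B d m → V)
    (pk : Ix B d m → Packet V B d m) (a : Fin B) (hj : j ≤ d) (C A : Finset (Fin j))
    (par : Fin j → Fin j) (g : Fin j → Fin (m + 1)) : ℝ :=
  h (conf (G ∪ (ixBelow B d m a).biUnion (fun i => star (pk i))) a C A par
    (selC φ pk a hj g) (selM N pk a hj g) (selL φ N pk a hj par g))

end defs

/-! ## The pieces -/

/-- (A) Walk.  From `(a, F, A)` with `Φ a F A` go to `(a + 1, F.erase e, T)` if this is accepted for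
some `e ∈ F`, otherwise to `(a + 1, F, A.erase v)` if this is accepted for some `v ∈ A`, otherwise
stop.  The number `F.card * (T.card + 1) + A.card` decreases at every step. -/
def StWalk : Prop := ∀ (V E : Type) [DecidableEq V] [DecidableEq E]
  (Φ : ℕ → Finset E → Finset V → Prop) (K : Finset E) (T : Finset V) (t : ℕ), Φ t K T →
  ∃ (a : ℕ) (F : Finset E) (A : Finset V), t ≤ a ∧ a < t + (K.card + 1) * (T.card + 1) ∧
    F ⊆ K ∧ A ⊆ T ∧ Φ a F A ∧ (∀ e ∈ F, ¬ Φ (a + 1) (F.erase e) T) ∧
    ∀ v ∈ A, ¬ Φ (a + 1) F (A.erase v)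

/-- (B) Star cover.  Take `F' ⊆ F` minimal such that every vertex outside `A` is in an edge of `F'`.
Every edge of `F'` has a private endpoint (outside `A`, in no other edge of `F'`); choose one
private endpoint of every edge: these are the leaves, `par` is the other endpoint. -/
def StCover : Prop := ∀ (j : ℕ) (F : Finset (Sym2 (Fin j))) (A : Finset (Fin j)),
  (∀ e ∈ F, ¬ e.IsDiag) → (∀ v, v ∈ A ∨ ∃ e ∈ F, v ∈ e) →
  ∃ (C : Finset (Fin j)) (par : Fin j → Fin j), A ⊆ C ∧
    (∀ w ∉ C, par w ∈ C ∧ s(par w, w) ∈ F) ∧ ∀ x ∈ C, x ∉ A → ∃ w ∉ C, par w = x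

/-- (C) Exchange, abstract form.  The events `0 is the unique strict maximum of the data τ g x`,
that is, `g is the unique strict maximum of x`, are disjoint, and equally probable. -/
def StUnique : Prop := ∀ (Γ D : Type) [Fintype Γ] [AddGroup Γ] [Fintype D] (v : Γ → D → ℝ)
  (τ : Γ → Equiv.Perm D), (∀ g g' x, v g (τ g' x) = v (g + g') x) →
  Nat.card Γ * Nat.card {x : D // ∀ g, g ≠ 0 → v g x < v 0 x} ≤ Nat.card D

/-- (E) Change of measure: the map `G ↦ G ∪ K` has fibres of at most `2 ^ K.card` elements. -/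
def StChange : Prop := ∀ (E : Type) [Fintype E] [DecidableEq E] (K : Finset E)
  (Θ : Finset E → Prop),
  Nat.card {G : Finset E // Θ (G ∪ K)} ≤ 2 ^ K.card * Nat.card {G : Finset E // Θ G}

/-- (E2) The edges of the pattern which are not in the star cover are absorbed by `G_0`.  With
`K = F.image (Sym2.map φ) \ leafE φ par Cᶜ`, `Crit` for `G` implies `CritS` for `G ∪ K`; use (E). -/
def StExtra : Prop := ∀ (V : Type) [Fintype V] [DecidableEq V] (B d m j a : ℕ)
  (h : Finset (Sym2 V) → ℝ), Monotone h → ∀ (φ : Fin j → V), Function.Injective φ →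
  ∀ (F : Finset (Sym2 (Fin j))) (C A : Finset (Fin j)) (par : Fin j → Fin j), A ⊆ C →
  (∀ w ∉ C, par w ∈ C ∧ s(par w, w) ∈ F) →
  ∀ (pk : Ix B d m → Packet V B d m) (ν : V → Ix B d m → V),
  Nat.card {G : Finset (Sym2 V) // Crit h (G, pk, ν) a (F.image (Sym2.map φ)) (A.image φ)
    (univ.image φ)} ≤
  2 ^ F.card * Nat.card {G : Finset (Sym2 V) // CritS h (G, pk, ν) a φ C A par}

/-- (D1) Deterministic part of the exchange.  Suppose `g ≠ 0`.  If some leaf `w0` has
`g (par w0) ≠ 0` or `g w0 ≠ 0`, then the graph of the choice `g` is contained in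
`stage ω (a + 1) ∪ marks ω (a + 1) (univ.image φ) ∪ leafE φ par (Cᶜ.erase w0)`.  Otherwise some
`i ∈ A` has `g i ≠ 0`, and the graph is contained in
`stage ω (a + 1) ∪ marks ω (a + 1) ((A.erase i).image φ) ∪ leafE φ par Cᶜ`.
For `g = 0` it is `stage ω a ∪ marks ω a (A.image φ) ∪ leafE φ par Cᶜ`. -/
def StDet : Prop := ∀ (V : Type) [Fintype V] [DecidableEq V] (B d m j : ℕ) (a : Fin B)
  (hj : j ≤ d) (h : Finset (Sym2 V) → ℝ), Monotone h → ∀ (φ : Fin j → V)
  (C A : Finset (Fin j)) (par : Fin j → Fin j), A ⊆ C → (∀ w ∉ C, par w ∈ C) →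
  (∀ x ∈ C, x ∉ A → ∃ w ∉ C, par w = x) → ∀ ω : Env V B d m, CritS h ω a φ C A par →
  ∀ g : Fin j → Fin (m + 1), g ≠ 0 →
  val h ω.1 φ (fun i => ω.2.2 (φ i)) ω.2.1 a hj C A par g <
  val h ω.1 φ (fun i => ω.2.2 (φ i)) ω.2.1 a hj C A par 0

/-- (D2) Rotation.  All data are independent uniform vertices, `x : Coord → V`, where
`Coord = Fin j ⊕ (Fin j × Ix) ⊕ (Ix × Option Rt)`.  The choice `g` reads the coordinates `(c, g i)`
of injectively embedded orbits `{(centre i), (mark i b), b.1 < a} × Fin (m + 1)`, `i ∈ C`, and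
`{leaf w} × Fin (m + 1) × Fin (m + 1)`, `w ∉ C`, at `(g (par w), g w)`; rotate the orbits (for
instance by `Equiv.Perm.viaEmbedding`) and use (C).  The packets of the blocks `< a` do not move. -/
def StRot : Prop := ∀ (V : Type) [Fintype V] [DecidableEq V] (B d m j : ℕ) (a : Fin B)
  (hj : j ≤ d) (h : Finset (Sym2 V) → ℝ) (G : Finset (Sym2 V))
  (C A : Finset (Fin j)) (par : Fin j → Fin j), A ⊆ C → (∀ w ∉ C, par w ∈ C) →
  (m + 1) ^ j * Nat.card {x : (Fin j → V) × (Fin j → Ix B d m → V) × (Ix B d m → Packet V B d m) //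
    ∀ g : Fin j → Fin (m + 1), g ≠ 0 →
      val h G x.1 x.2.1 x.2.2 a hj C A par g < val h G x.1 x.2.1 x.2.2 a hj C A par 0} ≤
  Nat.card ((Fin j → V) × (Fin j → Ix B d m → V) × (Ix B d m → Packet V B d m))

/-- (D3) The marks of distinct vertices are independent and uniform. -/
def StFibre : Prop := ∀ (V M : Type) [Fintype V] [DecidableEq V] [Fintype M] (j : ℕ)
  (φ : Fin j → V), Function.Injective φ → ∀ Q : (Fin j → M) → Prop,
  Nat.card {ν : V → M // Q (fun i => ν (φ i))} * Nat.card M ^ j =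
  Nat.card {N : Fin j → M // Q N} * Nat.card M ^ Fintype.card V

/-- (D4) From (D1), (D2), (D3). -/
def StExch : Prop := ∀ (V : Type) [Fintype V] [DecidableEq V] (B d m j a : ℕ), a < B → j ≤ d →
  ∀ (h : Finset (Sym2 V) → ℝ), Monotone h → ∀ (G : Finset (Sym2 V))
  (C A : Finset (Fin j)) (par : Fin j → Fin j), A ⊆ C → (∀ w ∉ C, par w ∈ C) →
  (∀ x ∈ C, x ∉ A → ∃ w ∉ C, par w = x) →
  (m + 1) ^ j * Nat.card {x : (Fin j → V) × (Ix B d m → Packet V B d m) × (V → Ix B d m → V) //
    Function.Injective x.1 ∧ CritS h (G, x.2) a x.1 C A par} ≤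
  Nat.card ((Fin j → V) × (Ix B d m → Packet V B d m) × (V → Ix B d m → V))

/-- (F1) From (B), (E2), (D4). -/
def StShape : Prop := ∀ (V : Type) [Fintype V] [DecidableEq V] (B d m j a : ℕ), a < B → j ≤ d →
  ∀ (h : Finset (Sym2 V) → ℝ), Monotone h → ∀ (F : Finset (Sym2 (Fin j))) (A : Finset (Fin j)),
  (∀ e ∈ F, ¬ e.IsDiag) → (∀ v, v ∈ A ∨ ∃ e ∈ F, v ∈ e) →
  (m + 1) ^ j * Nat.card {x : (Fin j → V) × Env V B d m //
    Function.Injective x.1 ∧ Crit h x.2 a (F.image (Sym2.map x.1)) (A.image x.1)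
      (univ.image x.1)} ≤
  2 ^ F.card * Nat.card ((Fin j → V) × Env V B d m)

/-- (F2) From (F1): sum over the stages `a`, the sizes `j`, the shapes (at most `2 ^ (j * (j + 1) / 2
+ j)`), and the injective maps `φ`; a random `k`-set contains `j` given vertices with probability at
most `(k / n) ^ j`. -/
def StBad : Prop := ∀ (V : Type) [Fintype V] [DecidableEq V] [Nonempty V] (B d m k : ℕ),
  k ≤ Fintype.card V → ∀ (t q lo hi : ℕ), t + q ≤ B → hi ≤ d →
  ∀ (h : Finset (Sym2 V) → ℝ), Monotone h →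
  prob (fun x : {S : Finset V // S.card = k} × Env V B d m => Bad h t q lo hi x.1.1 x.2) ≤
  (q : ℝ) * ∑ j ∈ Icc lo hi, (2 : ℝ) ^ (j ^ 2 + 2 * j) * ((k : ℝ) / (m + 1)) ^ j

/-- (G1) Reduction, from (A): either there is a critical pattern with more than `c` vertices, or the
value is reached with at most `c` vertices. -/
def StReduce : Prop := ∀ (V : Type) [Fintype V] [DecidableEq V] (B d m : ℕ)
  (h : Finset (Sym2 V) → ℝ), Monotone h → ∀ (t q c w : ℕ), (w ^ 2 + 1) * (w + 1) ≤ q →
  ∀ (ω : Env V B d m) (S T : Finset V), T ⊆ S → T.card ≤ w → ¬ Bad h t q (c + 1) w S ω →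
  ∃ T' ⊆ T, T'.card ≤ c ∧
    h (stage ω t ∪ marks ω t T ∪ KT T) ≤ h (stage ω (t + q) ∪ marks ω (t + q) T' ∪ KT T')

/-- (H1) One star.  The probability of the graph `H` under `G ∪ star p` is
`2 ^ (- |E|) * f H`, `f H = E_p [1 (star p ⊆ H) * 2 ^ |star p|]`; `E_H f = 1`,
`E_H f ^ 2 = E_{p, p'} 2 ^ |star p ∩ star p'|`, which is at most
`1 + (1 / n) * ((1 + R / n) ^ R - 1) + (R / n) ^ 2 ≤ 1 + 3 * R ^ 2 / n ^ 2`
(distinct centres `y`, `y'`: the only common edge is `s(y, y')`, if `y'` is a leaf of `p` and `y` is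
a leaf of `p'`); then Cauchy-Schwarz. -/
def StStar : Prop := ∀ (V ρ : Type) [Fintype V] [DecidableEq V] [Nonempty V] [Fintype ρ]
  [DecidableEq ρ],
  (Fintype.card ρ) ^ 2 ≤ Fintype.card V → ∀ Θ : Finset (Sym2 V) → Prop,
  prob (fun x : Finset (Sym2 V) × (Option ρ → V) => Θ (x.1 ∪ star x.2)) ≤
  prob Θ + 2 * (Fintype.card ρ : ℝ) / Fintype.card V

/-- (H2) All stars, from (H1). -/
def StTV : Prop := ∀ (V : Type) [Fintype V] [DecidableEq V] [Nonempty V] (B d m : ℕ),
  (Fintype.card (Rt B d m)) ^ 2 ≤ Fintype.card V → ∀ Θ : Finset (Sym2 V) → Prop,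
  prob (fun ω : Env V B d m => Θ (stage ω B)) ≤
  prob Θ + Fintype.card (Ix B d m) * (2 * (Fintype.card (Rt B d m) : ℝ) / Fintype.card V)

end Pool.Agent.T9h34.Q
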