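import Pool.Agent.T9h34.Q.Spec3

set_option autoImplicit false

/-!
# Planted cliques in G(n, 1/2): counting the edges (the lower bound for the advantage)
-/

namespace Pool.Agent.T9h34.Q

open Finset
open Pool.Agent.PC34 (prob withClique)
open Pool.Agent.T9h34 (graphInput)
open Pool.Agent.HC34 (srcs IsLevel DepthLE)

/-- (S1) The probabilistic part.  Let `e G` be the number of edges, `M = k * (k - 1) / 2`.  The sum
over all thresholds `θ` of `P[e (G + K_S) ≥ θ] - P[e G ≥ θ]` is `E[e (G + K_S) - e G] = M / 2`.  The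
thresholds with `|θ - N / 2| > 4 * n`, `N = n * (n - 1) / 2`, contribute at most
`M * P[e (G + K_S) > N / 2 + 4 * n] + M * P[e G < N / 2 - 4 * n] ≤ M / 4` (Chebyshev: the variance of
`e G` is `N / 4`, and `M ≤ n`).  So one of the at most `8 * n + 1` other thresholds has
`P[e (G + K_S) ≥ θ] - P[e G ≥ θ] ≥ M / 4 / (8 * n + 1) ≥ k ^ 2 / (150 * n)`.  (Any positive constant
is fine.)  Counts of ordered pairs: `2 * e G`. -/
def StCount : Prop := ∃ c : ℝ, 0 < c ∧ ∀ n k : ℕ, 2 ≤ k → k ^ 2 ≤ n → ∃ θ : ℝ,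
  prob (fun G : SimpleGraph (Fin n) =>
    θ ≤ ∑ p : Fin n × Fin n, (if graphInput G p = true then (1 : ℝ) else 0)) +
    c * (k ^ 2 / n) ≤
  prob (fun x : SimpleGraph (Fin n) × {S : Finset (Fin n) // S.card = k} =>
    θ ≤ ∑ p : Fin n × Fin n,
      (if graphInput (withClique x.1 x.2.1) p = true then (1 : ℝ) else 0))

/-- (S2) A circuit which adds all inputs: a binary tree of additions.  Let `L = Nat.clog 2 (n ^ 2)`
(`L = 1` if this is `0`), leaves `0, ..., 2 ^ L - 1` (the inputs `(u / n, u % n)`, `u < n ^ 2`, and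
constants `0`); gate number `t < 2 ^ L - 1` adds the nodes `2 * t`, `2 * t + 1`, where node `u` is
leaf `u` if `u < 2 ^ L` and gate `u - 2 ^ L` otherwise.  The last gate `2 ^ L - 2` is the sum of all
leaves. -/
def StSum : Prop := ∀ (n : ℕ), 2 ≤ n → ∀ θ : ℝ, ∃ C : T9h35.RW.Circuit (Fin n × Fin n),
  C.FanIn 2 0 ∧ C.numTests = 0 ∧ C.size ≤ 2 * n ^ 2 ∧ DepthLE C (2 * Nat.log 2 n + 2) ∧
  ∀ x : Fin n × Fin n → Bool, C.eval x = true ↔
    θ ≤ ∑ p : Fin n × Fin n, (if x p = true then (1 : ℝ) else 0)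

end Pool.Agent.T9h34.Q
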