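import Pool.Agent.T9h34.Q.Spec3

set_option autoImplicit false

/-!
# Planted cliques in G(n, 1/2): slices (why the bound cannot be improved unless NP is hard)

From any circuit `A` with advantage `α` we get, for every `T` with `2 ^ T ≤ n`, a circuit with `T`
tests and advantage `c * α ^ 2 * 2 ^ T / n`: accept if the number `X` of inputs equal to 1 is at
least `θ + 2 ^ T`, or if it is at least `θ` and `A` accepts.  In the window
`θ ≤ X < θ + 2 ^ T` the negations of the inputs are nondecreasing functions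
(`- x p = ∑ q ≠ p, x q + ∑ i, w i * nb i - (θ + 2 ^ T - 1)`, Berkowitz, Valiant; `nb i` are `T`
negated tests, Markov, Fischer), so every gate `v` of `A` is replaced by two nondecreasing real
gates, for `v` and `- v`.
-/

namespace Pool.Agent.T9h34.Q

open Finset
open Pool.Agent.PC34 (prob withClique)
open Pool.Agent.T9h34 (graphInput)
open Pool.Agent.HC34 (srcs IsLevel DepthLE)

section defs

variable {ι : Type}

/-- The function `F` is computed by a source, at level at most `ℓ` (inputs and constants have level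
`0`, a gate `j` has level `lev j + 1`). -/
def Comp (gs : List (T9h35.RW.Gate ι)) (lev : ℕ → ℕ) (F : (ι → Bool) → ℝ) (ℓ : ℕ) : Prop :=
  ∃ a : T9h35.RW.Src ι, (∀ j, a = .gate j → j < gs.length ∧ lev j < ℓ) ∧
    ∀ x, a.eval x (T9h35.RW.runGates x gs) = F x

/-- There is a list of at most `s` gates, with levels less than `D`, with `T` tests, gates of the
first kind of fan-in at most `f` (nondecreasing), gates of the second kind with at most one test,
which computes all functions `p.1`, `p ∈ 𝓕`, at level at most `p.2`. -/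
def Prog (f s D T : ℕ) (𝓕 : Set (((ι → Bool) → ℝ) × ℕ)) : Prop :=
  ∃ (gs : List (T9h35.RW.Gate ι)) (lev : ℕ → ℕ), gs.length ≤ s ∧
    (gs.map (fun g => g.tests.length)).sum = T ∧ (∀ g ∈ gs, g.FanIn f 1) ∧
    IsLevel (⟨gs, (.const 0, 0)⟩ : T9h35.RW.Circuit ι) lev ∧ (∀ j < gs.length, lev j < D) ∧
    ∀ p ∈ 𝓕, Comp gs lev p.1 p.2

/-- The value of an input. -/
def inp (p : ι) : (ι → Bool) → ℝ := fun x => if x p = true then 1 else 0

/-- The number of inputs equal to 1. -/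
def ones [Fintype ι] (x : ι → Bool) : ℕ := (univ.filter (fun p => x p = true)).card

end defs

/-! ## The pieces -/

/-- (X0) Inputs and constants, no gates. -/
def StP0 : Prop := ∀ (ι : Type) (f : ℕ), Prog f 0 0 0
  {p : ((ι → Bool) → ℝ) × ℕ | (∃ i, p.1 = inp i) ∨ ∃ c : ℝ, p.1 = fun _ => c}

/-- (X1) Add one nondecreasing gate. -/
def StP1 : Prop := ∀ (ι : Type) (f s D T ℓ D' : ℕ) (𝓕 : Set (((ι → Bool) → ℝ) × ℕ))
  (ps : List (((ι → Bool) → ℝ) × ℕ)) (φ : List ℝ → ℝ), Prog f s D T 𝓕 →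
  (∀ p ∈ ps, p ∈ 𝓕 ∧ p.2 ≤ ℓ) → ps.length ≤ f → T9h35.RW.Nondecreasing φ → D ≤ D' →
  ℓ + 1 ≤ D' → Prog f (s + 1) D' T (insert (fun x => φ (ps.map (fun p => p.1 x)), ℓ + 1) 𝓕)

/-- (X2) Add one negated test. -/
def StP2 : Prop := ∀ (ι : Type) (f s D T ℓ D' : ℕ) (𝓕 : Set (((ι → Bool) → ℝ) × ℕ))
  (F : (ι → Bool) → ℝ) (θ : ℝ), Prog f s D T 𝓕 → (F, ℓ) ∈ 𝓕 → D ≤ D' → ℓ + 1 ≤ D' →
  Prog f (s + 1) D' (T + 1) (insert (fun x => if θ ≤ F x then 0 else 1, ℓ + 1) 𝓕)

/-- (X3) Add sums of `2 ^ L` functions, by binary trees, for a finite family of sums, from (X1):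
induction on `L`. -/
def StP3 : Prop := ∀ (ι K : Type) [Fintype K] (f s D T ℓ L D' : ℕ)
  (𝓕 : Set (((ι → Bool) → ℝ) × ℕ)) (G : K → Fin (2 ^ L) → (ι → Bool) → ℝ), Prog f s D T 𝓕 →
  2 ≤ f → (∀ k i, (G k i, ℓ) ∈ 𝓕) → D ≤ D' → ℓ + L ≤ D' →
  Prog f (s + Fintype.card K * 2 ^ L) D' T
    (𝓕 ∪ Set.range (fun k : K => ((fun x => ∑ i, G k i x), ℓ + L)))

/-- (X4) The dual circuit, from (X1).  For every gate of `A` (value `v`) two nondecreasing gates,
with values `v` and `- v` whenever `z p x = - inp p x` for all `p`: for a gate `φ (v₁, ..., v_r)` the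
gates `φ (v₁, ..., v_r)` and `- φ (- v₁', ..., - v_r')`, where `v_i'` is the negative of `v_i`; for
a gate `ψ` of tests `θ_i ≤ v_i`: the maximum of `± ψ b` over all `b` with
`b_i = true → θ_i ≤ v_i` and `b_i = false → - v_i' < θ_i` (the least value if there is no `b`), which
is nondecreasing in the `2 * d'` numbers `v_i`, `v_i'`. -/
def StP4 : Prop := ∀ (ι : Type) (f s D T ℓ f' d' DA : ℕ) (𝓕 : Set (((ι → Bool) → ℝ) × ℕ))
  (z : ι → (ι → Bool) → ℝ) (A : T9h35.RW.Circuit ι), Prog f s D T 𝓕 →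
  (∀ i, (z i, ℓ) ∈ 𝓕) → (∀ i, (inp i, ℓ) ∈ 𝓕) → (∀ c : ℝ, ((fun _ => c), ℓ) ∈ 𝓕) →
  A.FanIn f' d' → f' ≤ f → 2 * d' ≤ f → DepthLE A DA → D ≤ ℓ + DA →
  ∃ W : (ι → Bool) → ℝ, (∀ x, (∀ i, z i x = - inp i x) → (A.out.2 ≤ W x ↔ A.eval x = true)) ∧
    Prog f (s + 2 * A.size) (ℓ + DA) T (insert (W, ℓ + DA) 𝓕)

/-- (X5) The window circuit, from (X0)-(X4).  Let `w i = 2 ^ (T - 1 - i)`, `i < T`,
`nb i = 1` if `ones x + ∑ l < i, w l * nb l < θ + 2 ^ T - w i`, and `0` otherwise, and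
`t = ∑ i, w i * nb i`.  Then `ones x + t = θ + 2 ^ T - 1` if `θ ≤ ones x < θ + 2 ^ T`; it is smaller
if `ones x < θ`, and larger if `θ + 2 ^ T ≤ ones x`.  `z p = (∑ q ≠ p, inp q) + t - (θ + 2 ^ T - 1)`.
Sums: (X3) with `K = Option ι` and `L = Nat.clog 2 (Fintype.card ι)`. -/
def StP5 : Prop := ∀ (ι : Type) [Fintype ι] [DecidableEq ι] (f d' DA T θ : ℕ)
  (A : T9h35.RW.Circuit ι), 2 ≤ f → A.FanIn f d' → 2 * d' ≤ f → DepthLE A DA →
  ∃ C : T9h35.RW.Circuit ι, C.FanIn f 1 ∧ C.numTests = T ∧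
    C.size ≤ 2 * A.size + (Fintype.card ι + 1) * (2 * Fintype.card ι + 1) + 3 * T +
      Fintype.card ι + 5 ∧
    DepthLE C (DA + Nat.clog 2 (Fintype.card ι) + 3 * T + 5) ∧
    ∀ x, C.eval x = true ↔ θ + 2 ^ T ≤ ones x ∨ (θ ≤ ones x ∧ ones x < θ + 2 ^ T ∧
      A.eval x = true)

/-- (X6) The probabilistic part.  Let `X G` be the number of ordered pairs of adjacent vertices,
mean `μ = n * (n - 1) / 2`, variance `n * (n - 1) / 2`.  Take the windows `[θ, θ + W)`, `θ` multiple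
of `W`, which meet `[μ - λ * n, μ + λ * n]`, `λ = 1 / sqrt α`; they are at most `4 * n / (W * sqrt α)`.
For `G ≤ G'` the sum over these windows of (`G'` accepted) - (`G` accepted) is at least
`1 (P G') - 1 (P G) - 1 (X G is in none of the windows)`. -/
def StP6 : Prop := ∃ c : ℝ, 0 < c ∧ ∀ (n k W : ℕ), 2 ≤ n → k ≤ n → 1 ≤ W → W ≤ n →
  ∀ (P : SimpleGraph (Fin n) → Prop) (α : ℝ), 0 < α → α ≤ 1 →
  prob (fun G : SimpleGraph (Fin n) => P G) + α ≤
    prob (fun x : SimpleGraph (Fin n) × {S : Finset (Fin n) // S.card = k} =>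
      P (withClique x.1 x.2.1)) →
  ∃ θ : ℕ,
    prob (fun G : SimpleGraph (Fin n) => θ + W ≤ ones (graphInput G) ∨
      (θ ≤ ones (graphInput G) ∧ ones (graphInput G) < θ + W ∧ P G)) + c * α ^ 2 * (W / n) ≤
    prob (fun x : SimpleGraph (Fin n) × {S : Finset (Fin n) // S.card = k} =>
      θ + W ≤ ones (graphInput (withClique x.1 x.2.1)) ∨
      (θ ≤ ones (graphInput (withClique x.1 x.2.1)) ∧
        ones (graphInput (withClique x.1 x.2.1)) < θ + W ∧ P (withClique x.1 x.2.1)))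

/-- (X7) The theorem, from (X5), (X6). -/
def StP7 : Prop := ∃ c : ℝ, 0 < c ∧ ∀ (n k f d' DA T : ℕ) (A : T9h35.RW.Circuit (Fin n × Fin n))
  (α : ℝ), 2 ≤ n → k ≤ n → 2 ^ T ≤ n → 2 ≤ f → A.FanIn f d' → 2 * d' ≤ f → DepthLE A DA →
  0 < α → α ≤ 1 →
  prob (fun G : SimpleGraph (Fin n) => A.eval (graphInput G) = true) + α ≤
    prob (fun x : SimpleGraph (Fin n) × {S : Finset (Fin n) // S.card = k} =>
      A.eval (graphInput (withClique x.1 x.2.1)) = true) →
  ∃ C : T9h35.RW.Circuit (Fin n × Fin n), C.FanIn f 1 ∧ C.numTests = T ∧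
    C.size ≤ 2 * A.size + 10 * n ^ 4 ∧ DepthLE C (DA + 10 * Nat.log 2 n + 10) ∧
    prob (fun G : SimpleGraph (Fin n) => C.eval (graphInput G) = true) +
        c * α ^ 2 * (2 ^ T / n) ≤
      prob (fun x : SimpleGraph (Fin n) × {S : Finset (Fin n) // S.card = k} =>
        C.eval (graphInput (withClique x.1 x.2.1)) = true)

end Pool.Agent.T9h34.Q
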