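import Pool.Agent.T9h34.Q.Spec4

set_option autoImplicit false

/-!
# Counting the edges, from (S1) and (S2)
-/

namespace Pool.Agent.T9h34.Q

open Finset
open Pool.Agent.PC34 (prob withClique)
open Pool.Agent.T9h34 (graphInput)
open Pool.Agent.HC34 (srcs IsLevel DepthLE)

theorem counting_of (h1 : StCount) (h2 : StSum) : ∃ c : ℝ, 0 < c ∧ ∀ n k : ℕ, 2 ≤ k → k ^ 2 ≤ n →
    ∃ C : T9h35.RW.Circuit (Fin n × Fin n),
      C.FanIn 2 0 ∧ C.numTests = 0 ∧ C.size ≤ 2 * n ^ 2 ∧ DepthLE C (2 * Nat.log 2 n + 2) ∧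
      prob (fun G : SimpleGraph (Fin n) => C.eval (graphInput G) = true) + c * (k ^ 2 / n) ≤
      prob (fun x : SimpleGraph (Fin n) × {S : Finset (Fin n) // S.card = k} =>
        C.eval (graphInput (withClique x.1 x.2.1)) = true) := by
  obtain ⟨c, hc, h1⟩ := h1
  refine ⟨c, hc, ?_⟩
  intro n k hk hkn
  have hn : 2 ≤ n := by nlinarith
  obtain ⟨θ, hθ⟩ := h1 n k hk hkn
  obtain ⟨C, hC1, hC2, hC3, hC4, hC5⟩ := h2 n hn θ
  refine ⟨C, hC1, hC2, hC3, hC4, ?_⟩
  have e1 : (fun G : SimpleGraph (Fin n) => C.eval (graphInput G) = true) =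
      (fun G : SimpleGraph (Fin n) =>
        θ ≤ ∑ p : Fin n × Fin n, (if graphInput G p = true then (1 : ℝ) else 0)) := by
    funext G
    exact propext (hC5 _)
  have e2 : (fun x : SimpleGraph (Fin n) × {S : Finset (Fin n) // S.card = k} =>
      C.eval (graphInput (withClique x.1 x.2.1)) = true) =
      (fun x : SimpleGraph (Fin n) × {S : Finset (Fin n) // S.card = k} =>
      θ ≤ ∑ p : Fin n × Fin n,
      (if graphInput (withClique x.1 x.2.1) p = true then (1 : ℝ) else 0)) := by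
    funext x
    exact propext (hC5 _)
  rw [e1, e2]
  exact hθ

end Pool.Agent.T9h34.Q
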