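import Pool.Agent.T9h34.Q.Final
import Pool.Agent.T9h34.Q.Spec3

set_option autoImplicit false

/-!
# Planted cliques in G(n, 1/2): the final theorem, sharp form
-/

namespace Pool.Agent.T9h34.Q

open Finset
open Pool.Agent.PC34 (prob withClique)
open Pool.Agent.T9h34 (graphInput)
open Pool.Agent.T9h34.P (gr)
open Pool.Agent.HC34 (srcs IsLevel DepthLE)

theorem prob_graph {n k : ℕ} (hGr : StGr) (C : T9h35.RW.Circuit (Fin n × Fin n)) :
    prob (fun x : SimpleGraph (Fin n) × {S : Finset (Fin n) // S.card = k} =>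
      C.eval (graphInput (withClique x.1 x.2.1)) = true) =
    prob (fun x : Finset (Sym2 (Fin n)) × {S : Finset (Fin n) // S.card = k} =>
      C.eval (graphInput (gr (x.1 ∪ KT x.2.1))) = true) ∧
    prob (fun G : SimpleGraph (Fin n) => C.eval (graphInput G) = true) =
    prob (fun U : Finset (Sym2 (Fin n)) => C.eval (graphInput (gr U)) = true) := by
  have h3 := hGr n {S : Finset (Fin n) // S.card = k}
    (fun G S => C.eval (graphInput (withClique G S.1)) = true)
  have h4 := hGr n Unit (fun G _ => C.eval (graphInput G) = true)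
  have h5 : prob (fun x : Finset (Sym2 (Fin n)) × Unit => C.eval (graphInput (gr x.1)) = true) =
      prob (fun U : Finset (Sym2 (Fin n)) => C.eval (graphInput (gr U)) = true) :=
    prob_equiv (Equiv.prodPUnit _) (fun U : Finset (Sym2 (Fin n)) =>
      C.eval (graphInput (gr U)) = true)
  have h6 : prob (fun x : SimpleGraph (Fin n) × Unit => C.eval (graphInput x.1) = true) =
      prob (fun G : SimpleGraph (Fin n) => C.eval (graphInput G) = true) :=
    prob_equiv (Equiv.prodPUnit _) (fun G : SimpleGraph (Fin n) =>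
      C.eval (graphInput G) = true)
  simp only [withClique_gr] at h3
  rw [h5, h6] at h4
  exact ⟨h3.symm, h4.symm⟩

theorem stFinalB (hAll : StAllB) (hPar : StParamsB) (hGr : StGr) : StFinalB := by
  intro δ h0 h1
  obtain ⟨n₀, hn₀⟩ := hPar δ h0 h1
  refine ⟨max n₀ 1, ?_⟩
  intro n k f s D hn hk hD hns hf hlog d' C hC hCs hdep
  have hnpos : 0 < n := lt_of_lt_of_le Nat.one_pos (le_trans (le_max_right _ _) hn)
  have hn' : n₀ ≤ n := le_trans (le_max_left _ _) hn
  have hn1 : (1 : ℝ) ≤ n := by exact_mod_cast hnpos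
  have hn0 : (0 : ℝ) < n := by linarith
  have hkD : (1 : ℝ) ≤ ((k : ℝ) * D) ^ 2 := by
    have h2 : (1 : ℝ) ≤ (k : ℝ) * D := by
      have : 1 ≤ k * D := Nat.one_le_iff_ne_zero.2 (by positivity)
      exact_mod_cast this
    nlinarith
  have htriv : (1 : ℝ) ≤ 2 ^ C.numTests * (((k : ℝ) * D) ^ 2 * (n : ℝ) ^ (δ - 1)) →
      prob (fun x : SimpleGraph (Fin n) × {S : Finset (Fin n) // S.card = k} =>
        C.eval (graphInput (withClique x.1 x.2.1)) = true) ≤
      prob (fun G : SimpleGraph (Fin n) => C.eval (graphInput G) = true) +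
        2 ^ C.numTests * (((k : ℝ) * D) ^ 2 * (n : ℝ) ^ (δ - 1)) := by
    intro h
    have h6 := prob_le_one (fun x : SimpleGraph (Fin n) × {S : Finset (Fin n) // S.card = k} =>
      C.eval (graphInput (withClique x.1 x.2.1)) = true)
    have h7 := prob_nonneg (fun G : SimpleGraph (Fin n) => C.eval (graphInput G) = true)
    linarith
  by_cases hT : C.numTests ≤ Nat.log 2 n
  · by_cases hkn : ((k : ℝ) * D) ^ 2 < (n : ℝ) ^ (1 - δ)
    · obtain ⟨_, hkn', c, m, q, B, d, hc, hd, hm, hq, hB, hR, herr⟩ :=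
        hn₀ n k f s D hn' hk hD hns hf hlog hkn
      have h2 := hAll n B d m k f c q D s d' C hnpos hkn' hC hCs hdep hf hc hd hm hq
        (le_trans (Nat.mul_le_mul_left q (by omega)) hB) hR
      obtain ⟨h3, h4⟩ := prob_graph (k := k) hGr C
      rw [h3, h4]
      refine h2.trans ?_
      have h7 := mul_le_mul_of_nonneg_left herr
        (by positivity : (0 : ℝ) ≤ 2 ^ C.numTests)
      linarith
    · push Not at hkn
      apply htriv
      have h8 : (1 : ℝ) ≤ ((k : ℝ) * D) ^ 2 * (n : ℝ) ^ (δ - 1) := by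
        calc (1 : ℝ) = (n : ℝ) ^ (1 - δ) * (n : ℝ) ^ (δ - 1) := by
              rw [← Real.rpow_add hn0]
              simp
          _ ≤ _ := mul_le_mul_of_nonneg_right hkn (by positivity)
      have h9 : (1 : ℝ) ≤ 2 ^ C.numTests := one_le_pow₀ (by norm_num)
      nlinarith
  · push Not at hT
    have h2 : n < 2 ^ C.numTests := by
      have := Nat.lt_pow_succ_log_self (b := 2) (by norm_num) n
      exact lt_of_lt_of_le this (Nat.pow_le_pow_right (by norm_num) hT)
    have h3 : (n : ℝ) ≤ 2 ^ C.numTests := by exact_mod_cast h2.le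
    apply htriv
    have h4 : (n : ℝ) ^ (-(1 : ℝ)) ≤ (n : ℝ) ^ (δ - 1) :=
      Real.rpow_le_rpow_of_exponent_le hn1 (by linarith)
    have h5 : (0 : ℝ) < (n : ℝ) ^ (-(1 : ℝ)) := by positivity
    calc (1 : ℝ) = n * (n : ℝ) ^ (-(1 : ℝ)) := by
          rw [Real.rpow_neg_one]
          field_simp
      _ ≤ 2 ^ C.numTests * (((k : ℝ) * D) ^ 2 * (n : ℝ) ^ (δ - 1)) := by
          refine mul_le_mul h3 ?_ h5.le (by positivity)
          nlinarith

end Pool.Agent.T9h34.Q
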