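import Pool.Agent.T9h34.Q.Final
import Pool.Agent.T9h75.QC.Walk
import Pool.Agent.T9h75.QC.Cover
import Pool.Agent.T9h75.QC.Reduce
import Pool.Agent.T9h75.QC.All
import Pool.Agent.T9h12.QC.Extra
import Pool.Agent.T9h71.QC.Det
import Pool.Agent.T9h69.QC.Rot
import Pool.Agent.T9h71.QC.Exch
import Pool.Agent.T9h71.QC.Shape
import Pool.Agent.T9h41.QC.Bad
import Pool.Agent.T9h51.QC.Circ
import Pool.Agent.T9h68.QC.Mono
import Pool.Agent.T9h68.QC.Gr
import Pool.Agent.T9h68.QC.TV
import Pool.Agent.T9h36.QC.Detector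
import Pool.Agent.T9h46.QC.Params

set_option autoImplicit false

/-!
# Planted cliques in G(n, 1/2): assembly
-/

namespace Pool.Agent.T9h34.Q

theorem bad : StBad :=
  T9h41.QC.stBad (T9h71.QC.stShape T9h75.QC.stCover (T9h12.QC.stExtra T9h75.QC.stChange)
    (T9h71.QC.stExch T9h71.QC.stDet (T9h69.QC.stRot T9h75.QC.stUnique) T9h75.QC.stFibre))

theorem mono : StMono := T9h68.QC.stMono bad (T9h51.QC.stCirc T9h75.QC.stReduce)

theorem all : StAll :=
  T9h75.QC.stAll mono T9h36.QC.stDetector T9h36.QC.stReads T9h68.QC.stTV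

/-- **Planted cliques in G(n, 1/2) are invisible for circuits with few negations.** -/
theorem final : StFinal := stFinal all T9h46.QC.stParams T9h68.QC.stGr

end Pool.Agent.T9h34.Q
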