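import Pool.Agent.T9h34.Q.Main
import Pool.Agent.T9h34.Q.FinalB
import Pool.Agent.T9h75.QC.UniqueB
import Pool.Agent.T9h75.QC.AllB
import Pool.Agent.T9h69.QC.RotB
import Pool.Agent.T9h12.QC.AllTV
import Pool.Agent.T9h71.QC.ExchB
import Pool.Agent.T9h41.QC.BadB
import Pool.Agent.T9h51.QC.CircB
import Pool.Agent.T9h68.QC.MonoB
import Pool.Agent.T9h46.QC.ParamsB

set_option autoImplicit false

/-!
# Planted cliques in G(n, 1/2): assembly of the sharp form
-/

namespace Pool.Agent.T9h34.Q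

theorem exchB : StExchB :=
  T9h71.QC.stExchB T9h71.QC.stDet (T9h69.QC.stRotB T9h75.QC.stUniqueB) T9h75.QC.stFibre
    T9h12.QC.stAllTV

theorem badB : StBadB :=
  T9h41.QC.stBadB (T9h71.QC.stShapeB T9h75.QC.stCover (T9h12.QC.stExtra T9h75.QC.stChange) exchB)

theorem monoB : StMonoB := T9h68.QC.stMonoB bad badB (T9h51.QC.stCircB T9h75.QC.stReduce)

theorem allB : StAllB :=
  T9h75.QC.stAllB monoB T9h36.QC.stDetector T9h36.QC.stReads T9h68.QC.stTV

/-- **The advantage for planted cliques in G(n, 1/2).** -/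
theorem finalB : StFinalB := stFinalB allB T9h46.QC.stParamsB T9h68.QC.stGr

end Pool.Agent.T9h34.Q
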