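import Pool.Agent.T9h34.Q.Spec
import Pool.Agent.T9h34.P.Step
import Pool.Agent.T9h35.RW.Pot

set_option autoImplicit false

/-!
# Planted cliques in G(n, 1/2): circuits, parameters, and the statements of the pieces
-/

namespace Pool.Agent.HC34

open Pool.Agent.T9h35.RW (Gate Test Src Circuit)

/-- The sources which a gate reads. -/
def srcs {ι : Type*} : Gate ι → List (Src ι)
  | .mono args _ => args
  | .other tests _ => tests.map Prod.fst

/-- `lev` is a numbering of the gates by levels: a gate has a larger level than the earlier gates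
which it reads. -/
def IsLevel {ι : Type*} (C : Circuit ι) (lev : ℕ → ℕ) : Prop :=
  ∀ (i j : ℕ) (g : Gate ι), C.gates[j]? = some g → Src.gate i ∈ srcs g → i < j → lev i < lev j

/-- No path of the circuit contains more than `D` gates: there are levels `0, ..., D - 1`. -/
def DepthLE {ι : Type*} (C : Circuit ι) (D : ℕ) : Prop :=
  ∃ lev : ℕ → ℕ, (∀ j < C.size, lev j < D) ∧ IsLevel C lev

end Pool.Agent.HC34

namespace Pool.Agent.T9h34.Q

open Finset
open Pool.Agent.PC34 (prob withClique)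
open Pool.Agent.T9h34 (graphInput)
open Pool.Agent.T9h34.P (gr)
open Pool.Agent.HC34 (srcs IsLevel DepthLE)


section defs

variable {n : ℕ}

/-- The value of a source, given the set of edges `U`. -/
noncomputable def srcVal (C : T9h35.RW.Circuit (Fin n × Fin n)) (a : T9h35.RW.Src (Fin n × Fin n))
    (U : Finset (Sym2 (Fin n))) : ℝ :=
  a.eval (graphInput (gr U)) (T9h35.RW.runGates (graphInput (gr U)) C.gates)

/-- The weight of the critical patterns with `j` vertices, `x = k / (m + 1)`. -/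
noncomputable def wgt (x : ℝ) (j : ℕ) : ℝ := (2 : ℝ) ^ (j ^ 2 + 2 * j) * x ^ j

/-- The probability of an error, for circuits without gates of the second kind. -/
noncomputable def errQ (s q c w : ℕ) (x : ℝ) : ℝ :=
  s * (q * ∑ j ∈ Icc (c + 1) w, wgt x j) + q * ∑ j ∈ Icc 1 c, wgt x j

end defs

/-! ## The pieces -/

/-- (G2) Induction over the gates (deterministic).  For every gate number `j` there is `T ⊆ S` with at
most `c` vertices such that the value of the gate on `G_0 ∪ KT S` is at most its value on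
`stage ω (q * (lev j + 1)) ∪ marks ω _ T ∪ KT T`: take the union of the sets of the sources it reads
(an input `(u, v)`: `∅` or `{u, v}`; a constant: `∅`), at stage `q * lev j`, with at most `f * c`
vertices, and use `StReduce` (the value of gate `j` is `srcVal C (.gate j)`).  In the end reduce the
set of the output to `∅` (`StReduce` with `c = 0`, `w = c`). -/
def StCirc : Prop := ∀ (n B d m f c q D : ℕ) (C : T9h35.RW.Circuit (Fin n × Fin n)) (lev : ℕ → ℕ),
  (∀ g ∈ C.gates, g.IsMono f) → (∀ j < C.size, lev j < D) → IsLevel C lev →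
  1 ≤ f → 2 ≤ c → ((f * c) ^ 2 + 1) * (f * c + 1) ≤ q → q * (D + 1) ≤ B →
  ∀ (ω : Env (Fin n) B d m) (S : Finset (Fin n)),
  (∀ j < C.size, ¬ Bad (srcVal C (.gate j)) (q * lev j) q (c + 1) (f * c) S ω) →
  ¬ Bad (srcVal C C.out.1) (q * D) q 1 c S ω →
  srcVal C C.out.1 (ω.1 ∪ KT S) ≤ srcVal C C.out.1 (stage ω B)

/-- (G3) From (F2) and (G2), by the union bound over the gates. -/
def StMono : Prop := ∀ (n B d m k f c q D s : ℕ) (C : T9h35.RW.Circuit (Fin n × Fin n)), 0 < n → k ≤ n →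
  (∀ g ∈ C.gates, g.IsMono f) → C.size ≤ s → DepthLE C D → 1 ≤ f → 2 ≤ c → d = f * c →
  (d ^ 2 + 1) * (d + 1) ≤ q → q * (D + 1) ≤ B →
  prob (fun x : {S : Finset (Fin n) // S.card = k} × Env (Fin n) B d m =>
    C.eval (graphInput (gr (x.2.1 ∪ KT x.1.1))) = true ∧
      C.eval (graphInput (gr (stage x.2 B))) = false) ≤ errQ s q c d ((k : ℝ) / (m + 1))

/-- (J) Detectors: `T9h35.RW.exists_detector` for all inputs with the same answers, and its depth. -/
def StDetector : Prop := ∀ (ι : Type) (f d D : ℕ), 2 ≤ f → ∀ C : T9h35.RW.Circuit ι, C.FanIn f d →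
  DepthLE C D → ∀ y₀ : ι → Bool,
  ∃ E : T9h35.RW.Circuit ι, (∀ g ∈ E.gates, g.IsMono f) ∧ E.size ≤ C.size + C.numTests + 1 ∧
    DepthLE E (D + C.numTests + 1) ∧
    (∀ y, C.reads y = C.reads y₀ → ∀ x, (∀ i, y i = true → x i = true) → E.eval x = false →
      C.reads x = C.reads y₀ ∧ C.eval x = false) ∧
    ∀ x, C.reads x = C.reads y₀ → E.eval x = true → C.eval x = true

/-- (R) The number of possible answers to all tests. -/
def StReads : Prop := ∀ (ι : Type) [Fintype ι] [DecidableEq ι] (C : T9h35.RW.Circuit ι),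
  (Set.range (fun x : ι → Bool => C.reads x)).ncard ≤ 2 ^ C.numTests

/-- (K) From sets of pairs (with loops) to graphs. -/
def StGr : Prop := ∀ (n : ℕ) (X : Type) [Fintype X] (Θ : SimpleGraph (Fin n) → X → Prop),
  prob (fun x : Finset (Sym2 (Fin n)) × X => Θ (gr x.1) x.2) =
  prob (fun x : SimpleGraph (Fin n) × X => Θ x.1 x.2)

/-- (L) For circuits with tests, from (G3), (J), (R), (H2).  Let `R` be the set of the possible
answers to the tests, `E r` the detector for `r ∈ R`.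
`P[C(G_0 ∪ K)] ≤ ∑ r, P[reads G_0 = r, E r (G_0 ∪ K)] ≤ ∑ r, (P[reads G_0 = r, E r (stage B)] + err)`
`≤ ∑ r, P[reads G_0 = r, E r (G_0)] + ∑ r, (P[E r (stage B)] - P[E r (G_0)]) + 2 ^ T err`
`≤ P[C(G_0)] + 2 ^ T (TV + err)`. -/
def StAll : Prop := ∀ (n B d m k f c q D s d' : ℕ) (C : T9h35.RW.Circuit (Fin n × Fin n)), 0 < n → k ≤ n →
  C.FanIn f d' → C.size + C.numTests ≤ s → DepthLE C D → 2 ≤ f → 2 ≤ c → d = f * c →
  (d ^ 2 + 1) * (d + 1) ≤ q → q * (D + C.numTests + 2) ≤ B →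
  (Fintype.card (Rt B d m)) ^ 2 ≤ n →
  prob (fun x : Finset (Sym2 (Fin n)) × {S : Finset (Fin n) // S.card = k} =>
    C.eval (graphInput (gr (x.1 ∪ KT x.2.1))) = true) ≤
  prob (fun U : Finset (Sym2 (Fin n)) => C.eval (graphInput (gr U)) = true) +
  2 ^ C.numTests * (errQ (s + 1) q c d ((k : ℝ) / (m + 1)) +
    Fintype.card (Ix B d m) * (2 * (Fintype.card (Rt B d m) : ℝ) / n))

/-- (P) Parameters.  Let `γ = 2 * ε / 3`, `m = ⌊k * n ^ γ⌋₊` (so `k / (m + 1) ≤ n ^ (-γ)`),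
`c = ⌈2 * log s / (γ * log n)⌉₊ + 2`, `d = f * c`, `q = (d ^ 2 + 1) * (d + 1)`,
`B = q * (D + Nat.log 2 n + 2)`.  Then `d ≤ 3 * f * log s / (ε * log n) + 3 * f ≤ 0.08 * ε * log n`,
so `2 ^ (d + 2) ≤ n ^ (ε / 12)`, `wgt x j ≤ (n ^ (-7 * ε / 12)) ^ j` for `1 ≤ j ≤ d`, `q` is at most
a power of `log n`, and `B * d * m` is at most `k * D * n ^ γ ≤ n ^ (1 / 2 - ε / 3)` times a power of
`log n`.  So the error is at most `n ^ (-7 * ε / 12) + n ^ (-2 * ε / 3)` times a power of `log n`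
(`card (Ix B d m) = B * (d * m)`, which is `0` if `m = 0`;
`card (Rt B d m) = B * (d * m) + d * (m + 1)`), and `7 / 12 > 1 / 2`.  The part with the factor
`s + 1` is at most `(s + 1) * q * 2 * (n ^ (-7 * ε / 12)) ^ (c + 1)`, and
`n ^ (7 * ε / 12 * (c + 1)) ≥ s ^ (7 / 4) * n ^ (7 * ε / 4)`. -/
def StParams : Prop := ∀ ε : ℝ, 0 < ε → ε ≤ 1 / 2 → ∃ n₀ : ℕ, ∀ n k f s D : ℕ, n₀ ≤ n →
  1 ≤ D → (k : ℝ) * D ≤ (n : ℝ) ^ (1 / 2 - ε) → n ≤ s → 2 ≤ f →
  f * Real.log s ≤ ε ^ 2 / 64 * Real.log n ^ 2 →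
  0 < n ∧ k ≤ n ∧ ∃ c m q B d : ℕ, 2 ≤ c ∧ d = f * c ∧ (d ^ 2 + 1) * (d + 1) ≤ q ∧
    q * (D + Nat.log 2 n + 2) ≤ B ∧ (Fintype.card (Rt B d m)) ^ 2 ≤ n ∧
    errQ (s + 1) q c d ((k : ℝ) / (m + 1)) +
      Fintype.card (Ix B d m) * (2 * (Fintype.card (Rt B d m) : ℝ) / n) ≤ (n : ℝ) ^ (-(ε / 2))

/-- (Z) The theorem, from (L), (P), (K); if `2 ^ C.numTests > n`, then the bound is trivial. -/
def StFinal : Prop := ∀ ε : ℝ, 0 < ε → ε ≤ 1 / 2 → ∃ n₀ : ℕ, ∀ n k f s D : ℕ, n₀ ≤ n →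
  1 ≤ D → (k : ℝ) * D ≤ (n : ℝ) ^ (1 / 2 - ε) → n ≤ s → 2 ≤ f →
  f * Real.log s ≤ ε ^ 2 / 64 * Real.log n ^ 2 →
  ∀ (d : ℕ) (C : T9h35.RW.Circuit (Fin n × Fin n)), C.FanIn f d → C.size + C.numTests ≤ s →
  DepthLE C D →
  prob (fun x : SimpleGraph (Fin n) × {S : Finset (Fin n) // S.card = k} =>
    C.eval (graphInput (withClique x.1 x.2.1)) = true) ≤
  prob (fun G : SimpleGraph (Fin n) => C.eval (graphInput G) = true) +
    2 ^ C.numTests * (n : ℝ) ^ (-(ε / 2))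

end Pool.Agent.T9h34.Q
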