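import Pool.Agent.T9h34.Q.Main

/-!
# Planted cliques in G(n, 1/2) are invisible for circuits with few negations (version 1)
-/

namespace Pool.Agent.Results.MP_8a52c3_lc.PlantedCliqueVersion1

open Pool.Agent.T9h34 (graphInput)
open Pool.Agent.T9h35.RW (Circuit)
open Pool.Agent.VC34 (numTests)
open Pool.Agent.PC34 (withClique prob)
open Pool.Agent.HC34 (DepthLE)

theorem result : ∀ ε : ℝ, 0 < ε → ε ≤ 1 / 2 → ∃ n₀ : ℕ, ∀ n k f s D : ℕ, n₀ ≤ n →
    1 ≤ D → (k : ℝ) * D ≤ (n : ℝ) ^ (1 / 2 - ε) → n ≤ s → 2 ≤ f →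
    f * Real.log s ≤ ε ^ 2 / 64 * Real.log n ^ 2 →
    ∀ (d : ℕ) (C : Circuit (Fin n × Fin n)), C.FanIn f d → C.size + numTests C ≤ s →
    DepthLE C D →
    prob (fun x : SimpleGraph (Fin n) × {S : Finset (Fin n) // S.card = k} =>
      C.eval (graphInput (withClique x.1 x.2.1)) = true) ≤
    prob (fun G : SimpleGraph (Fin n) => C.eval (graphInput G) = true) +
      2 ^ numTests C * (n : ℝ) ^ (-(ε / 2)) := by
  intro ε h0 h1
  obtain ⟨n₀, h⟩ := Pool.Agent.T9h34.Q.final ε h0 h1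
  refine ⟨n₀, ?_⟩
  intro n k f s D hn hD hk hs hf hl d C hC hCs hdep
  rw [Pool.Agent.VC34.numTests_eq] at hCs ⊢
  exact h n k f s D hn hD hk hs hf hl d C hC hCs hdep

end Pool.Agent.Results.MP_8a52c3_lc.PlantedCliqueVersion1
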